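import Pool.Agent.H.MP_1235ca_co.M
import Pool.Agent.H.MP_1235ca_co.L

namespace Pool.Agent.Results.MP_1235ca_co.Full

open Finset

/-- `A` is a Tesler matrix with hook sums `α`: upper triangular, nonnegative integer entries, and
for each `i` (row `i` from the diagonal rightwards) minus (column `i` strictly above the
diagonal) equals `α i`. -/
def IsTesler {n : ℕ} (α : Fin n → ℕ) (A : Matrix (Fin n) (Fin n) ℕ) : Prop :=
  (∀ i j, j < i → A i j = 0) ∧
    ∀ i, (∑ j ∈ univ.filter (fun j => i ≤ j), (A i j : ℤ))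
      - (∑ j ∈ univ.filter (fun j => j < i), (A j i : ℤ)) = (α i : ℤ)

/-- The number of Tesler matrices with hook sums `α`. -/
noncomputable def T {n : ℕ} (α : Fin n → ℕ) : ℕ := {A | IsTesler α A}.ncard

/-- The vector `(1^k, 0^(n-k))` of length `n`. -/
def onesZeros (n k : ℕ) : Fin n → ℕ := fun i => if i.val < k then 1 else 0

theorem bdd {n : ℕ} (α : Fin n → ℕ) (m : ℕ) :
    ∃ B, ∀ A, IsTesler α A → ∀ i j : Fin n, i.val < m → A i j ≤ B := by
  induction m with
  | zero => exact ⟨0, fun _ _ _ _ h => absurd h (by omega)⟩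
  | succ m ih =>
    obtain ⟨B, hB⟩ := ih
    refine ⟨B + (∑ l, α l + n * B), fun A hA i j hi => ?_⟩
    by_cases h : i.val < m
    · exact (hB A hA i j h).trans (Nat.le_add_right _ _)
    by_cases hj : j < i
    · rw [hA.1 i j hj]; exact Nat.zero_le _
    have h1 : ∑ j ∈ univ.filter (fun j => i ≤ j), A i j
        = α i + ∑ j ∈ univ.filter (fun j => j < i), A j i := by
      have := hA.2 i
      zify; linarith
    have h2 : A i j ≤ ∑ j ∈ univ.filter (fun j => i ≤ j), A i j :=
      Finset.single_le_sum (f := fun j => A i j) (fun _ _ => Nat.zero_le _)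
        (by simpa using hj)
    have h3 : α i ≤ ∑ l, α l :=
      Finset.single_le_sum (f := α) (fun _ _ => Nat.zero_le _) (mem_univ i)
    have h4 : ∑ j ∈ univ.filter (fun j => j < i), A j i ≤ n * B := by
      refine (Finset.sum_le_card_nsmul _ _ B fun l hl => hB A hA l i ?_).trans ?_
      · have : l < i := by simpa using hl
        have : l.val < i.val := this
        omega
      · rw [smul_eq_mul]
        exact Nat.mul_le_mul_right _ ((Finset.card_filter_le _ _).trans (by simp))
    omega

theorem fin {n : ℕ} (α : Fin n → ℕ) : {A | IsTesler α A}.Finite := by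
  obtain ⟨B, hB⟩ := bdd α n
  have : {A : Fin n → Fin n → ℕ | ∀ i, A i ∈ {r : Fin n → ℕ | ∀ j, r j ∈ Set.Iic B}}.Finite :=
    Set.Finite.pi' fun _ => Set.Finite.pi' fun _ => Set.finite_Iic B
  exact this.subset fun A hA i j => hB A hA i j i.2

theorem sum_ge (n : ℕ) (f : ℕ → ℤ) (i : Fin n) :
    ∑ j ∈ univ.filter (fun j : Fin n => i ≤ j), f j = ∑ j ∈ Ico i.val n, f j := by
  rw [Finset.sum_filter]
  refine (Finset.sum_range (fun j => if i.val ≤ j then f j else 0)).symm.trans ?_
  rw [← Finset.sum_filter]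
  congr 1
  ext j; simp [and_comm]

theorem sum_lt (n : ℕ) (f : ℕ → ℤ) (i : Fin n) :
    ∑ j ∈ univ.filter (fun j : Fin n => j < i), f j = ∑ j ∈ range i.val, f j := by
  rw [Finset.sum_filter]
  refine (Finset.sum_range (fun j => if j < i.val then f j else 0)).symm.trans ?_
  rw [← Finset.sum_filter]
  congr 1
  ext j
  have := i.2
  simp only [mem_filter, mem_range]; omega

open Pool.Agent.H.MP_1235ca_co in
theorem result (n k : ℕ) (hk : 11 ≤ k) (hkn : k ≤ n) :
    (k + 1) ^ (n - 1) ≤ T (onesZeros n k) := by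
  classical
  obtain ⟨j, rfl⟩ : ∃ j, n = k + j := ⟨n - k, by omega⟩
  obtain ⟨G, hG, hc⟩ := link0 (fun i => if i < k then 1 else 0)
    (List.replicate k 1 ++ List.replicate j 0) (by
      intro i h
      by_cases hi : i < k
      · rw [List.getElem_append_left (by simpa using hi)]; simp [hi]
      · rw [List.getElem_append_right (by simpa using hi)]; simp [hi])
  simp only [List.length_append, List.length_replicate] at hG
  refine (main k j hk).trans (hc.trans ?_)
  rw [← Set.ncard_coe_finset]
  refine Set.ncard_le_ncard_of_injOn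
    (fun A : ℕ → ℕ → ℕ => (Matrix.of fun i l : Fin (k + j) => A i l)) ?_ ?_ (fin _)
  · intro A hA
    have h := hG A hA
    refine ⟨fun i l hl => h.1 _ _ (by have : l.val < i.val := hl; omega), fun i => ?_⟩
    simp only [Matrix.of_apply]
    rw [sum_ge _ (fun l => (A i l : ℤ)), sum_lt _ (fun l => (A l i : ℤ))]
    have := congrArg (Nat.cast : ℕ → ℤ) (h.2 i i.2)
    rw [Nat.cast_add, Nat.cast_sum, Nat.cast_sum] at this
    simp only [onesZeros]
    linarith
  · intro A hA A' hA' h
    funext i l
    by_cases hil : i ≤ l ∧ l < k + j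
    · exact congrFun (congrFun h ⟨i, by omega⟩) ⟨l, hil.2⟩
    · rw [(hG A hA).1 i l hil, (hG A' hA').1 i l hil]

end Pool.Agent.Results.MP_1235ca_co.Full
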